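import Mathlib
import Pool.Agent.H447R2.MZ.Dich

set_option autoImplicit false

/-!
# Multiple zeta values: either graded up to weight `p`, or linear growth of all the weight spaces

A dichotomy, for every `p`: either there is no linear relation over `ℚ` between multiple zeta values
of different weights `≤ p`, or `dim_ℚ Z_N ≥ ⌊N / (2 p)⌋` for all `N`.
-/

namespace Pool.Agent.Results.MP_2000e9_nt.GradedOrLinearGrowth

/-- the `ℚ`-span of the multiple zeta values
`ζ(n_1, …, n_r) = ∑_{0 < k_1 < ⋯ < k_r} k_1^(-n_1) ⋯ k_r^(-n_r)` (`n_i ≥ 1`, `n_r ≥ 2`) of weight `N`;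
for `r = 0` the value is `1` and the weight `0` -/
noncomputable def Z (N : ℕ) : Submodule ℚ ℝ :=
  Submodule.span ℚ
    {x : ℝ | ∃ r : ℕ, ∃ n : Fin r → ℕ,
      (∀ i, 1 ≤ n i) ∧ (∀ h : 0 < r, 2 ≤ n ⟨r - 1, Nat.sub_lt h one_pos⟩) ∧ (∑ i, n i) = N ∧
      x = ∑' k : {k : Fin r → ℕ // StrictMono k ∧ ∀ i, 1 ≤ k i},
            ∏ i, (((k.1 i : ℕ) : ℝ) ^ (n i))⁻¹}

/-- reversing the order of the summation indices -/
def revEquiv (t : ℕ) :
    {m : Fin t → ℕ // StrictAnti m ∧ ∀ i, 1 ≤ m i} ≃ {k : Fin t → ℕ // StrictMono k ∧ ∀ i, 1 ≤ k i} where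
  toFun := fun m => ⟨m.1 ∘ Fin.rev, fun i j hij => m.2.1 (Fin.rev_lt_rev.2 hij), fun i => m.2.2 _⟩
  invFun := fun m => ⟨m.1 ∘ Fin.rev, fun i j hij => m.2.1 (Fin.rev_lt_rev.2 hij), fun i => m.2.2 _⟩
  left_inv := fun m => by
    apply Subtype.ext
    funext i
    simp
  right_inv := fun m => by
    apply Subtype.ext
    funext i
    simp

open Pool.Agent.H447R2.MZ in
theorem Zs_le (N : ℕ) : Zs N ≤ Z N := by
  unfold Zs Z
  rw [Submodule.span_le]
  rintro x ⟨t, k, h1, h2, h3, rfl⟩
  refine Submodule.subset_span ⟨t, k ∘ Fin.rev, fun i => h1 _, fun h => ?_, ?_, ?_⟩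
  · have := h2 h
    have e : Fin.rev (⟨t - 1, Nat.sub_lt h one_pos⟩ : Fin t) = ⟨0, h⟩ := by
      ext
      simp only [Fin.val_rev]
      omega
    rw [Function.comp_apply, e]
    exact this
  · rw [← h3]
    exact Fintype.sum_equiv Fin.revPerm _ _ fun i => rfl
  · rw [← (revEquiv t).tsum_eq]
    refine tsum_congr fun m => ?_
    exact Fintype.prod_equiv Fin.revPerm _ _ fun i => by simp [revEquiv]

open Pool.Agent.H447R2.MZ in
theorem le_Zs (N : ℕ) : Z N ≤ Zs N := by
  unfold Zs Z
  rw [Submodule.span_le]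
  rintro x ⟨t, k, h1, h2, h3, rfl⟩
  refine Submodule.subset_span ⟨t, k ∘ Fin.rev, fun i => h1 _, fun h => ?_, ?_, ?_⟩
  · have := h2 h
    have e : Fin.rev (⟨0, h⟩ : Fin t) = ⟨t - 1, Nat.sub_lt h one_pos⟩ := by
      ext
      simp only [Fin.val_rev]
      omega
    rw [Function.comp_apply, e]
    exact this
  · rw [← h3]
    exact Fintype.sum_equiv Fin.revPerm _ _ fun i => rfl
  · rw [← (revEquiv t).symm.tsum_eq]
    refine tsum_congr fun m => ?_
    exact Fintype.prod_equiv Fin.revPerm _ _ fun i => by simp [revEquiv]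

theorem Z_eq (N : ℕ) : Z N = Pool.Agent.H447R2.MZ.Zs N := le_antisymm (le_Zs N) (Zs_le N)

/-- There is no nontrivial relation between multiple zeta values of different weights `≤ p`: if
`z_0 + z_1 + ⋯ + z_p = 0` with `z_j` in the space `Z j` of weight `j`, then all `z_j` vanish. -/
def GradedUpTo (p : ℕ) : Prop :=
  ∀ z : ℕ → ℝ, (∀ j ≤ p, z j ∈ Z j) → (∑ j ∈ Finset.range (p + 1), z j) = 0 → ∀ j ≤ p, z j = 0

theorem arith (N k p : ℕ) (hk : 3 ≤ k) (hkp : k ≤ p) :
    N / (2 * p) ≤ (N - 3 * (N % 2)) / (2 * k) + 1 := by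
  have h1 : N / (2 * p) ≤ N / (2 * k) := Nat.div_le_div_left (by omega) (by omega)
  refine h1.trans ?_
  have h2 : N ≤ (N - 3 * (N % 2)) + 2 * k := by omega
  calc N / (2 * k) ≤ ((N - 3 * (N % 2)) + 2 * k) / (2 * k) := Nat.div_le_div_right h2
    _ = _ := Nat.add_div_right _ (by omega)

/-- the dichotomy for weights at most `p` -/
theorem main (p : ℕ) : GradedUpTo p ∨
    ∀ N, ((N / (2 * p) : ℕ) : Cardinal) ≤ Module.rank ℚ ↥(Z N) := by
  rcases Pool.Agent.H447R2.MZ.direct_or p with h | ⟨k, hk, hkp, z, hz, ht⟩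
  · left
    intro z hz hs
    exact h z (fun j hj => by rw [← Z_eq]; exact hz j hj) hs
  · right
    intro N
    rcases lt_or_ge N 2 with hN | hN
    · have : N / (2 * p) = 0 := Nat.div_eq_of_lt (by omega)
      rw [this]
      simp
    · have h1 := Pool.Agent.H447R2.MZ.growth k z hz ht N hN
      rw [Z_eq]
      exact le_trans (by exact_mod_cast arith N k p hk hkp) h1

theorem indep_of_graded (h : ∀ p, GradedUpTo p) : iSupIndep Z := by
  classical
  rw [iSupIndep_iff_finsetSum_eq_zero_imp_eq_zero]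
  intro s v hv hs i hi
  have hp : s ⊆ Finset.range (s.sup id + 1) := fun j hj => by
    rw [Finset.mem_range, Nat.lt_succ_iff]
    exact Finset.le_sup (f := id) hj
  have h1 := h (s.sup id) (fun j => if j ∈ s then v j else 0) (fun j _ => by
    by_cases hj : j ∈ s
    · simp only [hj, if_true]
      exact hv j hj
    · simp only [hj, if_false]
      exact Submodule.zero_mem _) (by
    rw [← Finset.sum_subset hp (f := fun j => if j ∈ s then v j else 0)
      (fun j _ hj => by simp [hj])]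
    exact (Finset.sum_congr rfl fun j hj => by simp [hj]).trans hs) i
      (Finset.le_sup (f := id) hi)
  simpa [hi] using h1

/-- For every `p`: either there is no relation between multiple zeta values of different weights
`≤ p`, or `dim_ℚ Z_N ≥ ⌊N / (2 p)⌋` for every `N`. Consequently: either the sum of all the spaces
`Z_N` is direct, or their dimensions grow at least linearly. -/
theorem result :
    (∀ p, GradedUpTo p ∨ ∀ N, ((N / (2 * p) : ℕ) : Cardinal) ≤ Module.rank ℚ ↥(Z N)) ∧
    (iSupIndep Z ∨ ∃ p, 3 ≤ p ∧ ∀ N, ((N / (2 * p) : ℕ) : Cardinal) ≤ Module.rank ℚ ↥(Z N)) := by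
  refine ⟨main, ?_⟩
  by_cases h : ∀ p, GradedUpTo p
  · exact Or.inl (indep_of_graded h)
  · right
    push Not at h
    obtain ⟨p, hp⟩ := h
    refine ⟨max p 3, le_max_right _ _, fun N => ?_⟩
    rcases main p with h1 | h1
    · exact absurd h1 hp
    · refine le_trans ?_ (h1 N)
      rcases Nat.eq_zero_or_pos p with rfl | hp0
      · exfalso
        exact hp (fun z hz hs j hj => by
          have : j = 0 := by omega
          subst this
          simpa using hs)
      · exact_mod_cast Nat.div_le_div_left (by omega) (by omega)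

end Pool.Agent.Results.MP_2000e9_nt.GradedOrLinearGrowth
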